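import Pool.Agent.Helper15.AF.Goals1

/-!
# Project AF: packet IPC, the scalar product
-/

set_option autoImplicit false

namespace Pool.Agent.Helper80.AF

open Pool.Agent.Helper51.ZP Pool.Agent.Helper78.DT Pool.Agent.Helper78.JT Pool.Agent.Helper15.AF
open scoped Classical

theorem b2z_xor (a b : Bool) : b2z (xor a b) = b2z a + b2z b := by
  revert a b; decide

theorem bt_testBit (y i : ℕ) : bt y i = y.testBit i := by
  unfold bt
  rw [Nat.testBit_eq_decide_div_mod_eq]

theorem len_filter (p : ℕ → Bool) (m : ℕ) :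
    ((((List.range m).filter p).length : ℕ) : ZMod 2) = ∑ i ∈ Finset.range m, b2z (p i) := by
  induction m with
  | zero => simp
  | succ m ih =>
    rw [List.range_succ, List.filter_append, List.length_append, Nat.cast_add, ih,
      Finset.sum_range_succ]
    congr 1
    cases h : p m <;> simp [h, b2z]

theorem b2z_ip (Y : ℕ → Bool) (m y j : ℕ) :
    b2z (ip Y m y j) = ∑ i : Fin m, b2z (bt y i) * b2z (Y (j + i)) := by
  unfold ip
  rw [← z2b_natCast, b2z_z2b, len_filter, Finset.sum_range]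
  apply Finset.sum_congr rfl
  intro i _
  rw [b2z_and]

theorem ipc1 (Y : ℕ → Bool) (m n : ℕ) (c : Fin n → ZMod 2) (y : ℕ) :
    ∑ j : Fin n, c j * b2z (ip Y m y j) = ∑ i : Fin m, tm Y m c i * b2z (bt y i) := by
  unfold tm
  simp only [b2z_ip, Finset.mul_sum, Finset.sum_mul]
  rw [Finset.sum_comm]
  apply Finset.sum_congr rfl
  intro i _
  apply Finset.sum_congr rfl
  intro j _
  ring

theorem hs_lt {P : ℕ} (hP : 0 < P) (e w v : ℕ) : hs P e w v < P := by
  unfold hs pv
  exact Nat.mod_lt _ hP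

theorem sum_hv {P n : ℕ} (hP : 0 < P) (e w : ℕ) (c : Fin n → ZMod 2) (F : ℕ → ZMod 2) :
    ∑ v : Fin n, c v * F (hs P e w v) = ∑ u : Fin P, hv P e w c u * F u := by
  unfold hv
  simp only [Finset.sum_mul]
  rw [Finset.sum_comm]
  apply Finset.sum_congr rfl
  intro v _
  rw [Finset.sum_eq_single (⟨hs P e w v, hs_lt hP e w v⟩ : Fin P)]
  · simp
  · intro u _ hu
    rw [if_neg, zero_mul]
    intro h
    apply hu
    exact Fin.ext h.symm
  · intro h
    exact absurd (Finset.mem_univ _) h

theorem ipc2 (Y : ℕ → Bool) (m P e ζ u w n : ℕ) (c : Fin n → ZMod 2) (hP : 0 < P) :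
    dot c (fun v => gb Y m P e ζ u w v) =
      (∑ i : Fin m, tm Y m (hv P e w c) i * b2z (bt ζ i)) +
        ∑ i : Fin m, tm Y m c i * b2z (bt u i) := by
  rw [← ipc1, ← ipc1, ← sum_hv hP e w c (fun h => b2z (ip Y m ζ h)), ← Finset.sum_add_distrib]
  unfold dot gb
  apply Finset.sum_congr rfl
  intro v _
  rw [b2z_xor, mul_add]

theorem sg_add_one (a : ZMod 2) : sg (a + 1) = - sg a := by
  rw [sg_add, sg_one]
  ring

theorem ipc3 (m : ℕ) (d : Fin m → ZMod 2) :
    av (fun y : Fin (2 ^ m) => sg (∑ i : Fin m, d i * b2z (bt y i))) = if d = 0 then 1 else 0 := by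
  by_cases hd : d = 0
  · rw [if_pos hd]
    subst hd
    unfold av
    simp
  · rw [if_neg hd]
    obtain ⟨i0, hi0⟩ : ∃ i, d i ≠ 0 := by
      by_contra h
      push Not at h
      exact hd (funext h)
    have hd1 : d i0 = 1 := by
      rcases zmod2_cases (d i0) with h | h
      · exact absurd h hi0
      · exact h
    have hlt : ∀ y : Fin (2 ^ m), (y : ℕ) ^^^ 2 ^ (i0 : ℕ) < 2 ^ m := fun y =>
      Nat.xor_lt_two_pow y.2 (Nat.pow_lt_pow_right (by norm_num) i0.2)
    let σ : Fin (2 ^ m) → Fin (2 ^ m) := fun y => ⟨(y : ℕ) ^^^ 2 ^ (i0 : ℕ), hlt y⟩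
    have hσ : Function.Involutive σ := by
      intro y
      apply Fin.ext
      show ((y : ℕ) ^^^ 2 ^ (i0 : ℕ)) ^^^ 2 ^ (i0 : ℕ) = y
      rw [Nat.xor_assoc, Nat.xor_self, Nat.xor_zero]
    have hF : ∀ y : Fin (2 ^ m), sg (∑ i : Fin m, d i * b2z (bt (σ y) i)) =
        - sg (∑ i : Fin m, d i * b2z (bt y i)) := by
      intro y
      rw [← sg_add_one]
      congr 1
      have h1 : ∀ i : Fin m, d i * b2z (bt (σ y) i) =
          d i * b2z (bt y i) + if i = i0 then d i else 0 := by
        intro i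
        have h2 : bt (σ y) i = xor (bt y i) (decide (i = i0)) := by
          rw [bt_testBit, bt_testBit]
          show ((y : ℕ) ^^^ 2 ^ (i0 : ℕ)).testBit i = _
          rw [Nat.testBit_xor, Nat.testBit_two_pow]
          congr 1
          apply decide_eq_decide.2
          rw [Fin.ext_iff]
          exact eq_comm
        rw [h2, b2z_xor, mul_add]
        congr 1
        by_cases h : i = i0
        · simp [h, b2z]
        · simp [h, b2z]
      rw [Finset.sum_congr rfl (fun i _ => h1 i), Finset.sum_add_distrib]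
      congr 1
      rw [Finset.sum_ite_eq' Finset.univ i0]
      simp [hd1]
    have hsum : ∑ y : Fin (2 ^ m), sg (∑ i : Fin m, d i * b2z (bt y i)) = 0 := by
      have h1 := Equiv.sum_comp (Function.Involutive.toPerm σ hσ)
        (fun y : Fin (2 ^ m) => sg (∑ i : Fin m, d i * b2z (bt y i)))
      have h2 : ∑ y : Fin (2 ^ m), sg (∑ i : Fin m, d i * b2z (bt (σ y) i)) =
          - ∑ y : Fin (2 ^ m), sg (∑ i : Fin m, d i * b2z (bt y i)) := by
        rw [← Finset.sum_neg_distrib]
        apply Finset.sum_congr rfl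
        intro y _
        exact hF y
      have h3 : ∑ y : Fin (2 ^ m), sg (∑ i : Fin m, d i * b2z (bt (σ y) i)) =
          ∑ y : Fin (2 ^ m), sg (∑ i : Fin m, d i * b2z (bt y i)) := h1
      linarith
    unfold av
    rw [hsum, zero_div]

theorem ipc4 (Y : ℕ → Bool) (m y j : ℕ) : ip Y m (y % 2 ^ m) j = ip Y m y j := by
  unfold ip
  have h : (List.range m).filter (fun i => bt (y % 2 ^ m) i && Y (j + i)) =
      (List.range m).filter (fun i => bt y i && Y (j + i)) := by
    apply List.filter_congr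
    intro i hi
    rw [List.mem_range] at hi
    rw [bt_testBit, bt_testBit, Nat.testBit_mod_two_pow]
    simp [hi]
  rw [h]

/-- **IPC**. -/
theorem ipc : IpcStmt :=
  ⟨fun Y m n c y => ipc1 Y m n c y, fun Y m P e ζ u w n c hP => ipc2 Y m P e ζ u w n c hP,
    fun m d => ipc3 m d, fun Y m y j => ipc4 Y m y j⟩

end Pool.Agent.Helper80.AF
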