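import Pool.Agent.Helper15.AF.Goals1
import Pool.Agent.Helper51.ZP.Alg
import Pool.Agent.Helper3.DT.PTL
import Pool.Agent.Helper87.DT.PTN

/-!
# Project AF: packet PTY, the strings are computed in polynomial time
-/

set_option autoImplicit false

namespace Pool.Agent.Helper80.AF

open Pool.Agent.Helper81.CC Pool.Agent.Helper51.ZP Pool.Agent.Helper78.DT
  Pool.Agent.Helper78.JT Pool.Agent.Helper15.AF
open scoped Classical

theorem pt_iter {α : Type} [ToData α] {c s : α → List Bool} {m : α → ℕ} (hc : PolyTime c)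
    (hs : PolyTime s) (hm : PolyTime m) : PolyTime (fun a => (stp (c a))^[m a] (s a)) := by
  refine PolyTime.iterate_bd (n := m) (s0 := s) (step := fun a t => stp (c a) t) hm hs
    (PT_stp (by fun_prop) (by fun_prop)) (B := fun a => 4 * (sz (s a) + 1) + 1)
    (((PBd.const 4).mul ((PolyTime.bd hs).add (PBd.const 1))).add (PBd.const 1)) ?_
  intro a k _
  have h2 := sz_bools ((stp (c a))^[k] (s a))
  have h3 := length_iter_stp (c a) (s a) k
  have h4 := length_le_sz (s a)
  show sz ((stp (c a))^[k] (s a)) ≤ _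
  omega

theorem pt_s0 {α : Type} [ToData α] {k : α → ℕ} (hk : PolyTime k) :
    PolyTime (fun a => s0 (k a)) := by
  unfold s0
  exact PolyTime.list_map (f := fun _ i => decide (i = 0)) (PolyTime.range hk)
    (PolyTime.decide_eq (by fun_prop) (by fun_prop))

theorem pt_vk {α : Type} [ToData α] {k i : α → ℕ} (hk : PolyTime k) (hi : PolyTime i) :
    PolyTime (fun a => vk (k a) (i a)) := by
  unfold vk
  refine PolyTime.list_map (f := fun a j => decide (i a / 2 ^ j % 2 = 1)) (PolyTime.range hk) ?_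
  have h1 : PolyTime (fun z : α × ℕ => dg 2 (i z.1) z.2) :=
    (Pool.Agent.Helper87.DT.ptn (α × ℕ)).2 (fun _ => 2) (fun z => i z.1) (fun z => z.2)
      (PolyTime.const 2) (by fun_prop) (by fun_prop)
  have h2 : PolyTime (fun z : α × ℕ => decide (dg 2 (i z.1) z.2 = 1)) :=
    PolyTime.decide_eq h1 (PolyTime.const 1)
  exact h2

theorem pt_Qk {α : Type} [ToData α] {k n : α → ℕ} (hk : PolyTime k) (hn : PolyTime n)
    (hkn : ∀ x, 2 ^ k x ≤ n x) : PolyTime (fun a => 2 ^ k a) ∧ PolyTime (fun a => Qk (k a)) := by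
  have h1 := (Pool.Agent.Helper3.DT.ptl α n k (fun _ => 0) hn hk (PolyTime.const 0)).2.2.2.2 hkn
  refine ⟨h1, ?_⟩
  unfold Qk
  exact PolyTime.sub h1 (PolyTime.const 1)

theorem pt_full {α : Type} [ToData α] {k n : α → ℕ} {c : α → List Bool} (hk : PolyTime k)
    (hn : PolyTime n) (hkn : ∀ x, 2 ^ k x ≤ n x) (hc : PolyTime c) :
    PolyTime (fun a => full (k a) (c a)) := by
  have hQ := (pt_Qk hk hn hkn).2
  have hs := pt_s0 hk
  have h1 : PolyTime (fun a => decide ((stp (c a))^[Qk (k a)] (s0 (k a)) = s0 (k a))) :=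
    PolyTime.decide_eq (pt_iter hc hs hQ) hs
  have hc' : PolyTime (fun z : α × ℕ => c z.1) := by fun_prop
  have hs' : PolyTime (fun z : α × ℕ => s0 (k z.1)) := pt_s0 (by fun_prop)
  have h2 : PolyTime (fun z : α × ℕ => decide (z.2 = 0 ∨
      (stp (c z.1))^[z.2] (s0 (k z.1)) ≠ s0 (k z.1))) := by
    refine PolyTime.decide_or (PolyTime.decide_eq (by fun_prop) (by fun_prop)) ?_
    exact PolyTime.decide_ne (pt_iter hc' hs' (by fun_prop)) hs'
  have h3 : PolyTime (fun a => (List.range (Qk (k a))).all fun i => decide (i = 0 ∨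
      (stp (c a))^[i] (s0 (k a)) ≠ s0 (k a))) :=
    PolyTime.all (f := fun a i => decide (i = 0 ∨ (stp (c a))^[i] (s0 (k a)) ≠ s0 (k a)))
      (PolyTime.range hQ) h2
  exact PolyTime.and h1 h3

theorem pt_findc {α : Type} [ToData α] {k n : α → ℕ} (hk : PolyTime k)
    (hn : PolyTime n) (hkn : ∀ x, 2 ^ k x ≤ n x) : PolyTime (fun a => findc (k a)) := by
  unfold findc
  refine pt_vk hk ?_
  refine PolyTime.option_getD ?_ (PolyTime.const 0)
  refine PolyTime.find? (f := fun a i => full (k a) (vk (k a) i))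
    (PolyTime.range (pt_Qk hk hn hkn).1) ?_
  exact pt_full (k := fun z : α × ℕ => k z.1) (n := fun z => n z.1) (by fun_prop) (by fun_prop)
    (fun z => hkn z.1) (pt_vk (by fun_prop) (by fun_prop))

/-- **PTY**. -/
theorem pty : PtyStmt := by
  intro γ _ k n α β j hk hn hkn hα hβ hj
  unfold Yf yc
  refine PolyTime.headD ?_ (PolyTime.const false)
  refine pt_iter (pt_findc hk hn hkn) (pt_s0 hk) ?_
  exact PolyTime.mod (PolyTime.add hβ (PolyTime.mul hα hj)) (pt_Qk hk hn hkn).2

end Pool.Agent.Helper80.AF
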