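import Pool.Agent.Helper15.AF.Goals2

/-!
# Project AF: packet TWC, few cells in the supports of light vectors
-/

set_option autoImplicit false

namespace Pool.Agent.Helper80.AF

open Pool.Agent.Helper51.ZP Pool.Agent.Helper78.DT Pool.Agent.Helper78.JT Pool.Agent.Helper15.AF
open scoped Classical

/-- the hashed linear combination as a linear map of the coefficients -/
noncomputable def Phi (P e w : ℕ) {n ρ : ℕ} (a : Fin ρ → Fin n → ZMod 2) :
    (Fin ρ → ZMod 2) →ₗ[ZMod 2] (Fin P → ZMod 2) where
  toFun l := hv P e w (comb a l)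
  map_add' l l' := by
    funext u
    simp only [hv, comb, Pi.add_apply, add_mul, Finset.sum_add_distrib]
    rw [← Finset.sum_add_distrib]
    apply Finset.sum_congr rfl
    intro v _
    split_ifs <;> simp
  map_smul' c l := by
    funext u
    simp only [hv, comb, Pi.smul_apply, smul_eq_mul, RingHom.id_apply, Finset.mul_sum]
    apply Finset.sum_congr rfl
    intro v _
    split_ifs
    · rw [Finset.mul_sum]
      apply Finset.sum_congr rfl
      intro i _
      ring
    · simp

theorem Phi_apply (P e w : ℕ) {n ρ : ℕ} (a : Fin ρ → Fin n → ZMod 2) (l : Fin ρ → ZMod 2) :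
    Phi P e w a l = hv P e w (comb a l) := rfl

/-- **TWC**. -/
theorem twc : TwcStmt := by
  intro P e D w n ρ a
  set S : Set (Fin P → ZMod 2) := {x | x ∈ LinearMap.range (Phi P e w a) ∧ wz x ≤ D} with hS
  obtain ⟨b, hbS, hspan, hli⟩ := exists_linearIndependent (ZMod 2) S
  have hspan' : S ⊆ Submodule.span (ZMod 2) b := by
    rw [hspan]
    exact Submodule.subset_span
  have hbr : Submodule.span (ZMod 2) b ≤ LinearMap.range (Phi P e w a) := by
    rw [Submodule.span_le]
    intro x hx
    exact (hbS hx).1
  have : Fintype b := Fintype.ofFinite b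
  have hcard : b.toFinset.card ≤ ρ := by
    have h1 := finrank_span_set_eq_card hli
    have h2 := Submodule.finrank_mono hbr
    have h3 := LinearMap.finrank_range_le (Phi P e w a)
    rw [Module.finrank_fin_fun] at h3
    omega
  have hsub : (Finset.univ.filter fun u : Fin P => TW P e D w a u) ⊆
      b.toFinset.biUnion fun x => Finset.univ.filter fun u : Fin P => x u ≠ 0 := by
    intro u hu
    rw [Finset.mem_filter] at hu
    obtain ⟨-, l, hl1, hl2⟩ := hu
    have hx : hv P e w (comb a l) ∈ S := ⟨⟨l, rfl⟩, hl1⟩
    by_contra hcon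
    have h0 : ∀ x ∈ b, x u = 0 := by
      intro x hx
      by_contra hne
      apply hcon
      rw [Finset.mem_biUnion]
      exact ⟨x, Set.mem_toFinset.2 hx, Finset.mem_filter.2 ⟨Finset.mem_univ _, hne⟩⟩
    have hle : Submodule.span (ZMod 2) b ≤ LinearMap.ker (LinearMap.proj u :
        (Fin P → ZMod 2) →ₗ[ZMod 2] ZMod 2) := by
      rw [Submodule.span_le]
      intro x hx
      exact h0 x hx
    exact hl2 (hle (hspan' hx))
  calc (Finset.univ.filter fun u : Fin P => TW P e D w a u).card
      ≤ (b.toFinset.biUnion fun x => Finset.univ.filter fun u : Fin P => x u ≠ 0).card :=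
        Finset.card_le_card hsub
    _ ≤ b.toFinset.card * D := by
        apply Finset.card_biUnion_le_card_mul
        intro x hx
        exact (hbS (Set.mem_toFinset.1 hx)).2
    _ ≤ ρ * D := Nat.mul_le_mul_right D hcard

end Pool.Agent.Helper80.AF
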