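import Pool.Agent.Helper80.AF.TWC
import Pool.Agent.Helper59.DT.HSHINJ

/-!
# Project AF: packet VVC, few names are often hashed to the cells `TW`
-/

set_option autoImplicit false

namespace Pool.Agent.Helper80.AF

open Pool.Agent.Helper51.ZP Pool.Agent.Helper78.DT Pool.Agent.Helper78.JT Pool.Agent.Helper15.AF
open scoped Classical

/-- a set is at most as large as its image plus the number of the collisions -/
theorem card_le_image_add {α β : Type} [DecidableEq α] [DecidableEq β] (f : α → β)
    (X : Finset α) :
    X.card ≤ (X.image f).card +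
      ((X ×ˢ X).filter fun p => p.1 ≠ p.2 ∧ f p.1 = f p.2).card := by
  induction X using Finset.induction_on with
  | empty => simp
  | insert a X ha ih =>
    rw [Finset.card_insert_of_notMem ha]
    by_cases h : f a ∈ X.image f
    · obtain ⟨v, hv, hfv⟩ := Finset.mem_image.1 h
      have h1 : X.image f ⊆ (insert a X).image f := Finset.image_subset_image (Finset.subset_insert _ _)
      have h2 : insert (a, v) ((X ×ˢ X).filter fun p => p.1 ≠ p.2 ∧ f p.1 = f p.2) ⊆
          ((insert a X ×ˢ insert a X).filter fun p => p.1 ≠ p.2 ∧ f p.1 = f p.2) := by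
        intro p hp
        rw [Finset.mem_insert] at hp
        rw [Finset.mem_filter, Finset.mem_product]
        rcases hp with rfl | hp
        · refine ⟨⟨Finset.mem_insert_self _ _, Finset.mem_insert_of_mem hv⟩, ?_, hfv.symm⟩
          intro hav
          have hav' : a = v := hav
          rw [hav'] at ha
          exact ha hv
        · rw [Finset.mem_filter, Finset.mem_product] at hp
          exact ⟨⟨Finset.mem_insert_of_mem hp.1.1, Finset.mem_insert_of_mem hp.1.2⟩, hp.2⟩
      have h3 : (a, v) ∉ ((X ×ˢ X).filter fun p => p.1 ≠ p.2 ∧ f p.1 = f p.2) := by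
        intro hc
        rw [Finset.mem_filter, Finset.mem_product] at hc
        exact ha hc.1.1
      have h4 := Finset.card_le_card h2
      rw [Finset.card_insert_of_notMem h3] at h4
      have h5 := Finset.card_le_card h1
      omega
    · have h1 : ((insert a X).image f).card = (X.image f).card + 1 := by
        rw [Finset.image_insert, Finset.card_insert_of_notMem h]
      have h2 : ((X ×ˢ X).filter fun p => p.1 ≠ p.2 ∧ f p.1 = f p.2) ⊆
          ((insert a X ×ˢ insert a X).filter fun p => p.1 ≠ p.2 ∧ f p.1 = f p.2) := by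
        intro p hp
        rw [Finset.mem_filter, Finset.mem_product] at hp ⊢
        exact ⟨⟨Finset.mem_insert_of_mem hp.1.1, Finset.mem_insert_of_mem hp.1.2⟩, hp.2⟩
      have h3 := Finset.card_le_card h2
      omega

theorem pr_eq_card {P : ℕ} (E : Fin P → Prop) :
    pr E = ((Finset.univ.filter E).card : ℝ) / P := by
  unfold pr av
  rw [Finset.sum_boole, Fintype.card_fin]

/-- **VVC**. -/
theorem vvc : VvcStmt := by
  intro P e D n ρ k μ a hP hn hk hle
  by_contra hcon
  push Not at hcon
  obtain ⟨V', hV', hcard⟩ := Finset.exists_subset_card_eq hcon.le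
  have hP0 : (0 : ℝ) < P := by exact_mod_cast hP.pos
  set X : Fin P → Finset (Fin n) := fun w =>
    V'.filter fun v => ∃ u : Fin P, TW P e D w a u ∧ hs P e w v = u with hX
  set C : Fin P → Finset (Fin n × Fin n) := fun w =>
    (V' ×ˢ V').filter fun p => p.1 ≠ p.2 ∧ hs P e w p.1 = hs P e w p.2 with hC
  -- the bound for one `w`
  have h1 : ∀ w, (X w).card ≤ ρ * D + (C w).card := by
    intro w
    have e1 : (X w).card ≤ ((X w).image fun v : Fin n => hs P e w v).card +
        ((X w ×ˢ X w).filter fun p : Fin n × Fin n => p.1 ≠ p.2 ∧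
          hs P e w p.1 = hs P e w p.2).card :=
      card_le_image_add (fun v : Fin n => hs P e w v) (X w)
    have e2 : ((X w).image fun v : Fin n => hs P e w v).card ≤ ρ * D := by
      calc ((X w).image fun v : Fin n => hs P e w v).card
          ≤ ((Finset.univ.filter fun u : Fin P => TW P e D w a u).image
              fun u : Fin P => (u : ℕ)).card := by
            apply Finset.card_le_card
            intro y hy
            obtain ⟨v, hv, rfl⟩ := Finset.mem_image.1 hy
            rw [hX] at hv
            obtain ⟨-, u, hu, huv⟩ := Finset.mem_filter.1 hv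
            rw [Finset.mem_image]
            exact ⟨u, Finset.mem_filter.2 ⟨Finset.mem_univ _, hu⟩, huv.symm⟩
        _ ≤ (Finset.univ.filter fun u : Fin P => TW P e D w a u).card := Finset.card_image_le
        _ ≤ ρ * D := twc P e D w n ρ a
    have e3 : ((X w ×ˢ X w).filter fun p : Fin n × Fin n => p.1 ≠ p.2 ∧
        hs P e w p.1 = hs P e w p.2).card ≤ (C w).card := by
      apply Finset.card_le_card
      intro p hp
      rw [Finset.mem_filter, Finset.mem_product] at hp
      rw [hC, Finset.mem_filter, Finset.mem_product]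
      exact ⟨⟨(Finset.mem_filter.1 hp.1.1).1, (Finset.mem_filter.1 hp.1.2).1⟩, hp.2⟩
    omega
  -- the sum of the collisions
  have h2 : ∑ w, (C w).card ≤ k ^ 2 * e := by
    have e1 : ∀ w, (C w).card = ∑ p ∈ V' ×ˢ V', if p.1 ≠ p.2 ∧ hs P e w p.1 = hs P e w p.2 then 1 else 0 := by
      intro w
      rw [hC, Finset.card_filter]
    rw [Finset.sum_congr rfl (fun w _ => e1 w), Finset.sum_comm]
    calc ∑ p ∈ V' ×ˢ V', ∑ w : Fin P, (if p.1 ≠ p.2 ∧ hs P e w p.1 = hs P e w p.2 then 1 else 0)
        ≤ ∑ p ∈ V' ×ˢ V', e := by
          apply Finset.sum_le_sum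
          intro p _
          by_cases hne : p.1 = p.2
          · simp [hne]
          · have e2 := Pool.Agent.Helper59.DT.hsh P e p.1 p.2 hP (p.1.2.trans_le hn)
              (p.2.2.trans_le hn) (fun h => hne (Fin.ext h))
            rw [Nat.card_eq_fintype_card, Fintype.card_subtype] at e2
            rw [← Finset.card_filter]
            refine le_trans (le_of_eq ?_) e2
            congr 1
            apply Finset.filter_congr
            intro w _
            simp [hne]
      _ = k ^ 2 * e := by
          rw [Finset.sum_const, Finset.card_product, hcard, smul_eq_mul]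
          ring
  -- the lower bound
  have h3 : (k : ℝ) * (μ * P) < ∑ w, ((X w).card : ℝ) := by
    have e1 : ∀ w, ((X w).card : ℝ) =
        ∑ v ∈ V', if (∃ u : Fin P, TW P e D w a u ∧ hs P e w v = u) then (1 : ℝ) else 0 := by
      intro w
      rw [hX, Finset.card_filter]
      push_cast
      rfl
    rw [Finset.sum_congr rfl (fun w _ => e1 w), Finset.sum_comm]
    have e2 : (k : ℝ) * (μ * P) = ∑ v ∈ V', μ * P := by
      rw [Finset.sum_const, hcard, nsmul_eq_mul]
    rw [e2]
    apply Finset.sum_lt_sum_of_nonempty
    · rw [← Finset.card_pos, hcard]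
      exact hk
    · intro v hv
      have e3 := (Finset.mem_filter.1 (hV' hv)).2
      rw [pr_eq_card, lt_div_iff₀ hP0] at e3
      rw [Finset.sum_boole]
      refine lt_of_lt_of_le e3 ?_
      refine Nat.cast_le.2 (Finset.card_le_card ?_)
      intro x hx
      simp only [Finset.mem_filter] at hx ⊢
      exact hx
  have h4 : ∑ w, ((X w).card : ℝ) ≤ ((ρ * D : ℕ) : ℝ) * P + (k : ℝ) ^ 2 * e := by
    have e1 : ∑ w, (X w).card ≤ ρ * D * P + k ^ 2 * e := by
      calc ∑ w, (X w).card ≤ ∑ w, (ρ * D + (C w).card) := Finset.sum_le_sum (fun w _ => h1 w)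
        _ = ρ * D * P + ∑ w, (C w).card := by
            rw [Finset.sum_add_distrib, Finset.sum_const, Finset.card_univ, Fintype.card_fin,
              smul_eq_mul]
            ring
        _ ≤ _ := Nat.add_le_add_left h2 _
    exact_mod_cast e1
  linarith

end Pool.Agent.Helper80.AF
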